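import Pool.Agent.Helper67.KPG.St2
import Pool.Agent.Helper6.NO.M_DAD

/-!
# Project KP, module GPF: the groups `GP P`
-/

set_option autoImplicit false

namespace Pool.Agent.Helper78.KPG

open Pool.Agent.Helper67.NO Pool.Agent.Helper52.KP Pool.Agent.Helper67.KPG Filter
open scoped Topology

universe u

variable {g : Type u} [LieRing g] [LieAlgebra ℂ g] [FiniteDimensional ℂ g]

/-- the matrix of `ad v` -/
noncomputable def mt (v : g) :
    Matrix (Fin (Module.finrank ℂ g)) (Fin (Module.finrank ℂ g)) ℂ :=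
  LinearMap.toMatrix (Module.finBasis ℂ g) (Module.finBasis ℂ g) (LieAlgebra.ad ℂ g v)

theorem mt_neg (v : g) : mt (-v) = -mt v := by
  unfold mt
  rw [map_neg, map_neg]

theorem toM_exp (v : g) : LinearMap.toMatrix (Module.finBasis ℂ g) (Module.finBasis ℂ g) (expAd v) =
    NormedSpace.exp (mt v) := by
  unfold expAd mt
  exact LinearMap.toMatrix_toLin _ _ _

theorem exp_comp (v : g) : expAd (-v) ∘ₗ expAd v = LinearMap.id := by
  have hc : Commute (-mt v) (mt v) := (Commute.refl (mt v)).neg_left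
  apply (LinearMap.toMatrix (Module.finBasis ℂ g) (Module.finBasis ℂ g)).injective
  rw [LinearMap.toMatrix_comp _ (Module.finBasis ℂ g), toM_exp, toM_exp, mt_neg,
    ← Matrix.exp_add_of_commute _ _ hc, neg_add_cancel,
    NormedSpace.exp_zero, LinearMap.toMatrix_id]

theorem exp_comp' (v : g) : expAd v ∘ₗ expAd (-v) = LinearMap.id := by
  have h := exp_comp (-v)
  rwa [neg_neg] at h

theorem exp_neg_apply (v x : g) : expAd (-v) (expAd v x) = x :=
  LinearMap.congr_fun (exp_comp v) x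

theorem exp_apply_neg (v x : g) : expAd v (expAd (-v) x) = x :=
  LinearMap.congr_fun (exp_comp' v) x

theorem exp_zero' (x : g) : expAd (0 : g) x = x := by
  have h : (expAd (0 : g)) = LinearMap.id := by
    apply (LinearMap.toMatrix (Module.finBasis ℂ g) (Module.finBasis ℂ g)).injective
    rw [toM_exp, LinearMap.toMatrix_id]
    have : mt (0 : g) = 0 := by
      unfold mt
      rw [map_zero, map_zero]
    rw [this, NormedSpace.exp_zero]
  rw [h, LinearMap.id_apply]

/-- `ad (exp (ad v) y) = exp (ad v) ∘ ad y ∘ exp (- ad v)` -/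
theorem ad_exp (v y : g) : (LieAlgebra.ad ℂ g (expAd v y) : g →ₗ[ℂ] g) =
    expAd v ∘ₗ (LieAlgebra.ad ℂ g y : g →ₗ[ℂ] g) ∘ₗ expAd (-v) := by
  have h := (Pool.Agent.Helper6.NO.pDAD (Fin (Module.finrank ℂ g)) g
    (Module.finBasis ℂ g)).2.2.2.1 v y
  apply (LinearMap.toMatrix (Module.finBasis ℂ g) (Module.finBasis ℂ g)).injective
  rw [LinearMap.toMatrix_comp _ (Module.finBasis ℂ g), LinearMap.toMatrix_comp _
    (Module.finBasis ℂ g), toM_exp, toM_exp, mt_neg, ← mul_assoc]
  exact h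

theorem exp_lie (v x y : g) : expAd v ⁅x, y⁆ = ⁅expAd v x, expAd v y⁆ := by
  have h := LinearMap.congr_fun (ad_exp v x) (expAd v y)
  rw [LinearMap.comp_apply, LinearMap.comp_apply, exp_neg_apply] at h
  exact h.symm

/-! ### the series -/

theorem co_eq (x : g) : co x = (Module.finBasis ℂ g).equivFun x := rfl

theorem co_mulVec (T : g →ₗ[ℂ] g) (x : g) :
    (LinearMap.toMatrix (Module.finBasis ℂ g) (Module.finBasis ℂ g) T).mulVec (co x) = co (T x) :=
  LinearMap.toMatrix_mulVec_repr (Module.finBasis ℂ g) (Module.finBasis ℂ g) T x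

theorem mt_pow (v : g) (n : ℕ) : mt v ^ n = LinearMap.toMatrix (Module.finBasis ℂ g)
    (Module.finBasis ℂ g) ((LieAlgebra.ad ℂ g v : Module.End ℂ g) ^ n) := by
  induction n with
  | zero =>
    rw [pow_zero, pow_zero]
    exact (LinearMap.toMatrix_id _).symm
  | succ n ih =>
    rw [pow_succ, pow_succ, ih, Module.End.mul_eq_comp,
      LinearMap.toMatrix_comp _ (Module.finBasis ℂ g)]
    rfl

set_option backward.isDefEq.respectTransparency false in
open scoped Matrix.Norms.Operator in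
theorem hasSum_exp {n : Type} [Fintype n] [DecidableEq n] (A : Matrix n n ℂ) (y : n → ℂ) :
    HasSum (fun k : ℕ => ((k.factorial : ℂ)⁻¹) • (A ^ k).mulVec y)
      ((NormedSpace.exp A).mulVec y) := by
  have h1 : HasSum (fun k : ℕ => ((k.factorial : ℂ)⁻¹) • A ^ k) (NormedSpace.exp A) :=
    NormedSpace.exp_series_hasSum_exp' A
  have h2 := h1.map (AddMonoidHom.mk' (fun B : Matrix n n ℂ => B.mulVec y)
    (fun B B' => Matrix.add_mulVec B B' y)) (Continuous.matrix_mulVec continuous_id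
      continuous_const)
  refine h2.congr_fun ?_
  intro k
  show ((k.factorial : ℂ)⁻¹) • (A ^ k).mulVec y = (((k.factorial : ℂ)⁻¹) • A ^ k).mulVec y
  rw [Matrix.smul_mulVec]

theorem hasSum_expAd (v x : g) :
    HasSum (fun k : ℕ => co (((k.factorial : ℂ)⁻¹) • ((LieAlgebra.ad ℂ g v : Module.End ℂ g) ^ k) x))
      (co (expAd v x)) := by
  have h1 := hasSum_exp (mt v) (co x)
  rw [← toM_exp, co_mulVec] at h1
  refine h1.congr_fun ?_
  intro k
  rw [mt_pow, co_mulVec, co_eq, co_eq, map_smul]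

theorem exp_ser (v x : g) (k : ℕ) (h : ((LieAlgebra.ad ℂ g v : Module.End ℂ g) ^ k) x = 0) :
    expAd v x = ∑ i ∈ Finset.range k,
      ((i.factorial : ℂ)⁻¹) • ((LieAlgebra.ad ℂ g v : Module.End ℂ g) ^ i) x := by
  have h1 := hasSum_expAd v x
  have h2 : ∀ i ∉ Finset.range k,
      co (((i.factorial : ℂ)⁻¹) • ((LieAlgebra.ad ℂ g v : Module.End ℂ g) ^ i) x) = 0 := by
    intro i hi
    rw [Finset.mem_range, not_lt] at hi
    obtain ⟨j, rfl⟩ := Nat.exists_eq_add_of_le' hi
    rw [pow_add, Module.End.mul_apply, h, map_zero, smul_zero, co_eq, map_zero]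
  have h3 := h1.unique (hasSum_sum_of_ne_finset_zero h2)
  rw [co_eq] at h3
  apply (Module.finBasis ℂ g).equivFun.injective
  rw [h3, map_sum]
  rfl

theorem exp_sub (Q : Submodule ℂ g) (v : g) (hQ : ∀ x ∈ Q, ⁅v, x⁆ ∈ Q) (x : g) (hx : x ∈ Q) :
    expAd v x ∈ Q := by
  have hpow : ∀ k : ℕ, ((LieAlgebra.ad ℂ g v : Module.End ℂ g) ^ k) x ∈ Q := by
    intro k
    induction k with
    | zero =>
      rw [pow_zero]
      exact hx
    | succ k ih =>
      rw [pow_succ', Module.End.mul_apply, LieAlgebra.ad_apply]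
      exact hQ _ ih
  let Q' : Submodule ℂ (Fin (Module.finrank ℂ g) → ℂ) :=
    Q.map (Module.finBasis ℂ g).equivFun.toLinearMap
  have hcl : IsClosed (Q' : Set (Fin (Module.finrank ℂ g) → ℂ)) :=
    Submodule.closed_of_finiteDimensional Q'
  have h1 := (hasSum_expAd v x).tendsto_sum_nat
  have h2 : co (expAd v x) ∈ (Q' : Set (Fin (Module.finrank ℂ g) → ℂ)) := by
    refine hcl.mem_of_tendsto h1 (Eventually.of_forall fun n => ?_)
    refine Q'.sum_mem fun i _ => ?_
    exact ⟨_, Q.smul_mem _ (hpow i), rfl⟩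
  obtain ⟨y, hy, hyx⟩ := h2
  have : y = expAd v x := (Module.finBasis ℂ g).equivFun.injective hyx
  rw [← this]
  exact hy

/-! ### the groups -/

theorem gp_mul (P : Submodule ℂ g) {w w' : g →ₗ[ℂ] g} (hw : GP P w) (hw' : GP P w') :
    GP P (w ∘ₗ w') := by
  induction hw with
  | one => exact hw'
  | step w v _ hv ih =>
    rw [LinearMap.comp_assoc]
    exact GP.step _ v ih hv

theorem gp_exp (P : Submodule ℂ g) {v : g} (hv : v ∈ P) : GP P (expAd v) := by
  have h := GP.step LinearMap.id v (GP.one (P := P)) hv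
  rwa [LinearMap.comp_id] at h

theorem gp_inv (P : Submodule ℂ g) {w : g →ₗ[ℂ] g} (hw : GP P w) :
    ∃ w', GP P w' ∧ w ∘ₗ w' = LinearMap.id ∧ w' ∘ₗ w = LinearMap.id := by
  induction hw with
  | one => exact ⟨LinearMap.id, GP.one, rfl, rfl⟩
  | step w v _ hv ih =>
    obtain ⟨w', h1, h2, h3⟩ := ih
    have h2' : ∀ x, w (w' x) = x := fun x => LinearMap.congr_fun h2 x
    have h3' : ∀ x, w' (w x) = x := fun x => LinearMap.congr_fun h3 x
    refine ⟨w' ∘ₗ expAd (-v), gp_mul P h1 (gp_exp P (P.neg_mem hv)), LinearMap.ext fun x => ?_,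
      LinearMap.ext fun x => ?_⟩
    · rw [LinearMap.comp_apply, LinearMap.comp_apply, LinearMap.comp_apply, h2', exp_apply_neg,
        LinearMap.id_apply]
    · rw [LinearMap.comp_apply, LinearMap.comp_apply, LinearMap.comp_apply, exp_neg_apply, h3',
        LinearMap.id_apply]

theorem gp_mono {P P' : Submodule ℂ g} (h : P ≤ P') {w : g →ₗ[ℂ] g} (hw : GP P w) : GP P' w := by
  induction hw with
  | one => exact GP.one
  | step w v _ hv ih => exact GP.step w v ih (h hv)

theorem gp_lie {P : Submodule ℂ g} {w : g →ₗ[ℂ] g} (hw : GP P w) (x y : g) :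
    w ⁅x, y⁆ = ⁅w x, w y⁆ := by
  induction hw with
  | one => rfl
  | step w v _ hv ih => rw [LinearMap.comp_apply, ih, exp_lie]; rfl

theorem gp_equiv {P : Submodule ℂ g} {w : g →ₗ[ℂ] g} (hw : GP P w) :
    ∃ e : g ≃ₗ⁅ℂ⁆ g, ∀ x, e x = w x := by
  obtain ⟨w', -, h2, h3⟩ := gp_inv P hw
  let e : g ≃ₗ⁅ℂ⁆ g :=
    { toFun := w
      map_add' := w.map_add
      map_smul' := w.map_smul
      map_lie' := fun {x y} => gp_lie hw x y
      invFun := w'
      left_inv := fun x => LinearMap.congr_fun h3 x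
      right_inv := fun x => LinearMap.congr_fun h2 x }
  exact ⟨e, fun x => rfl⟩

theorem gp_rk {P : Submodule ℂ g} {w : g →ₗ[ℂ] g} (hw : GP P w) (x : g) :
    Pool.Agent.Helper52.KP.rk (w x) = Pool.Agent.Helper52.KP.rk x := by
  obtain ⟨w', -, h2, h3⟩ := gp_inv P hw
  have h2' : ∀ x, w (w' x) = x := fun x => LinearMap.congr_fun h2 x
  have h3' : ∀ x, w' (w x) = x := fun x => LinearMap.congr_fun h3 x
  let E : g ≃ₗ[ℂ] g := LinearEquiv.ofLinearMap w w' h2 h3
  have h4 : LinearMap.range (LieAlgebra.ad ℂ g (w x) : g →ₗ[ℂ] g) =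
      (LinearMap.range (LieAlgebra.ad ℂ g x : g →ₗ[ℂ] g)).map (E : g →ₗ[ℂ] g) := by
    ext z
    constructor
    · rintro ⟨y, rfl⟩
      refine ⟨⁅x, w' y⁆, ⟨w' y, rfl⟩, ?_⟩
      show w ⁅x, w' y⁆ = ⁅w x, y⁆
      rw [gp_lie hw, h2']
    · rintro ⟨_, ⟨y, rfl⟩, rfl⟩
      refine ⟨w y, ?_⟩
      show ⁅w x, w y⁆ = w ⁅x, y⁆
      rw [gp_lie hw]
  unfold Pool.Agent.Helper52.KP.rk
  rw [h4]
  exact LinearEquiv.finrank_map_eq E _

theorem hGPF : Pool.Agent.Helper67.KPG.StGPF.{u} := by
  intro g _ _ _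
  exact {
    inv := fun P w hw => gp_inv P hw
    mul := fun P w w' hw hw' => gp_mul P hw hw'
    mono := fun P P' h w hw => gp_mono h hw
    exp := fun P v hv => gp_exp P hv
    lie := fun P w hw x y => gp_lie hw x y
    kil := by
      intro P w hw x y
      obtain ⟨e, he⟩ := gp_equiv hw
      rw [← he, ← he]
      exact LieAlgebra.killingForm_of_equiv_apply e x y
    sub := by
      intro P Q hQ w hw
      induction hw with
      | one => exact fun x hx => hx
      | step w v _ hv ih => exact fun x hx => exp_sub Q v (hQ v hv) (w x) (ih x hx)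
    orb := by
      intro x y
      constructor
      · intro h
        induction h with
        | base => exact ⟨LinearMap.id, GP.one, rfl⟩
        | step y v _ ih =>
          obtain ⟨w, hw, rfl⟩ := ih
          exact ⟨expAd v ∘ₗ w, GP.step w v hw Submodule.mem_top, rfl⟩
      · rintro ⟨w, hw, rfl⟩
        induction hw with
        | one => exact Orb.base
        | step w v _ hv ih => exact Orb.step (w x) v ih
    neg := fun v x => ⟨exp_neg_apply v x, exp_apply_neg v x⟩
    ser := fun v x k h => exp_ser v x k h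
    zero := fun x => exp_zero' x
    rk := fun P w hw x => gp_rk hw x }

end Pool.Agent.Helper78.KPG
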